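import Pool.Agent.L7h71.GB.Stm

set_option autoImplicit false

namespace Pool.Agent.L7h95.GB

open Set Function
open Pool.Agent.L7h66.UA (XS XIso XYo XDich)
open Pool.Agent.L7h71.GB

section

variable {a : ℕ → ℕ} {K : ℕ → Type}

theorem Emb.mono {M N : XS a K ℕ} {e : ℕ → ℕ} {b b' : Set ℕ} (h : Emb M N e b) (hb : b' ⊆ b) :
    Emb M N e b' :=
  ⟨h.1.mono hb, fun i x hx => h.2 i x fun j => hb (hx j)⟩

theorem tau_iff [∀ i, MeasurableSpace (K i)] [∀ i, StandardBorelSpace (K i)] (hTAU : S_TAU)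
    (M N : XS a K ℕ) (m : ℕ) (u v : Fin (m + 1) → List ℕ) (hu : ∀ j, u j ≠ [])
    (hv : ∀ j, v j ≠ []) :
    tau M (List.ofFn u) = tau N (List.ofFn v) ↔
      ∃ e : ℕ → ℕ, Emb M N e {p | ∃ j, p ∈ u j} ∧ ∀ j, ((u j).map e).Perm (v j) := by
  have h1 := hTAU a K M N (List.ofFn u) (List.ofFn v) (by simp) (by simp)
    (by
      intro l hl
      obtain ⟨j, hj⟩ := (List.mem_ofFn' _ _).mp hl
      rw [← hj]; exact hu j)
    (by
      intro l hl
      obtain ⟨j, hj⟩ := (List.mem_ofFn' _ _).mp hl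
      rw [← hj]; exact hv j)
  rw [h1]
  have hset : {p | ∃ l ∈ List.ofFn u, p ∈ l} = {p | ∃ j, p ∈ u j} := by
    ext p
    constructor
    · rintro ⟨l, hl, hp⟩
      obtain ⟨j, hj⟩ := (List.mem_ofFn' _ _).mp hl
      exact ⟨j, by rw [hj]; exact hp⟩
    · rintro ⟨j, hp⟩
      exact ⟨u j, (List.mem_ofFn' _ _).mpr ⟨j, rfl⟩, hp⟩
  have hfor : ∀ e : ℕ → ℕ, List.Forall₂ (fun l l' => (l.map e).Perm l') (List.ofFn u)
      (List.ofFn v) ↔ ∀ j, ((u j).map e).Perm (v j) := by
    intro e
    rw [List.forall₂_iff_get]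
    constructor
    · rintro ⟨-, h2⟩ j
      have h3 := h2 j (by rw [List.length_ofFn]; exact j.2) (by rw [List.length_ofFn]; exact j.2)
      rw [List.get_eq_getElem, List.get_eq_getElem, List.getElem_ofFn, List.getElem_ofFn] at h3
      exact h3
    · intro h2
      refine ⟨by rw [List.length_ofFn, List.length_ofFn], fun i h3 h4 => ?_⟩
      rw [List.get_eq_getElem, List.get_eq_getElem, List.getElem_ofFn, List.getElem_ofFn]
      exact h2 ⟨i, by rwa [List.length_ofFn] at h3⟩
  rw [hset]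
  simp only [hfor]

/-- the first half of GDL -/
def GD1 : Prop := ∀ (a : ℕ → ℕ) (K : ℕ → Type) (𝓖 : FamG a K) (M N : XS a K ℕ) (e : ℕ → ℕ)
  (b : Finset ℕ), Emb M N e b → (Gd 𝓖 N (b.image e) ↔ Gd 𝓖 M b)

theorem yng (hTAU : S_TAU) (hGD : GD1) (hLIM : S_LIM) (hFIX : S_FIX) : S_YNG := by
  intro a K _ _ 𝓖 M ρ hU hρ F F' hFF N' hY
  classical
  have hne : ∀ i, lst (ρ i) ≠ [] := by
    intro i h
    obtain ⟨y, hy⟩ := hρ.prime i
    have := hy.2.1
    rw [h] at this
    simp at this
  let f := F'.sup id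
  have hf : ∀ i ∈ F', i ≤ f := fun i hi => Finset.le_sup (f := id) hi
  choose ε hε1 hε2 hε3 using fun t : ℕ => hY (Finset.range (t + f + 1))
  let l : ℕ → ℕ → List ℕ := fun t i => lst (ρ (ε t i))
  have hlne : ∀ t i, l t i ≠ [] := fun t i => hne _
  have hset : ∀ (t : ℕ) (w : ℕ → List ℕ),
      {p | ∃ j : Fin (t + 1), p ∈ w j} = {p | ∃ i ≤ t, p ∈ w i} := by
    intro t w
    ext p
    constructor
    · rintro ⟨j, hj⟩
      exact ⟨j, by omega, hj⟩
    · rintro ⟨i, hi, hp⟩
      exact ⟨⟨i, by omega⟩, hp⟩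
  -- values of N'
  have hval : ∀ (t m : ℕ) (i : Fin (m + 1) → ℕ), (∀ j, i j ≤ t) →
      tau M (List.ofFn fun j => l t (i j)) = N' m i := by
    intro t m i hi
    exact hε3 t m i (fun j => Finset.mem_range.mpr (by have := hi j; omega))
  have hl : ∀ t t', t ≤ t' → ∃ e : ℕ → ℕ, Emb M M e {p | ∃ i ≤ t, p ∈ l t i} ∧
      ∀ i ≤ t, ((l t i).map e).Perm (l t' i) := by
    intro t t' htt
    have h1 := hval t t (fun j => (j : ℕ)) (fun j => by omega)
    have h2 := hval t' t (fun j => (j : ℕ)) (fun j => by omega)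
    obtain ⟨e, he1, he2⟩ := (tau_iff hTAU M M t (fun j => l t j) (fun j => l t' j)
      (fun j => hlne _ _) (fun j => hlne _ _)).mp (h1.trans h2.symm)
    refine ⟨e, ?_, fun i hi => he2 ⟨i, by omega⟩⟩
    rw [← hset t (l t)]
    exact he1
  have hcount : ∀ n : ℕ, ∃ (t : ℕ) (s : Finset ℕ), n ≤ s.card ∧ ∀ p ∈ s, ∃ i ≤ t, p ∈ l t i := by
    intro n
    let t := 2 ^ n
    let s := (Finset.range (t + 1)).biUnion fun i => (l t i).toFinset
    refine ⟨t, s, ?_, ?_⟩
    · have h1 : (Finset.range (t + 1)).card ≤ s.powerset.card := by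
        apply Finset.card_le_card_of_injOn (fun i => (l t i).toFinset)
        · intro i hi
          rw [Finset.mem_coe, Finset.mem_powerset]
          exact Finset.subset_biUnion_of_mem (fun i => (l t i).toFinset) (by simpa using hi)
        · intro i hi j hj hij
          have h2 : ε t i = ε t j := hρ.anti _ _ (by
            have : (l t i).toFinset = (l t j).toFinset := hij
            exact this.subset)
          have hi' : i < t + 1 := by simpa using hi
          have hj' : j < t + 1 := by simpa using hj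
          exact hε1 t (by simp; omega) (by simp; omega) h2
      rw [Finset.card_range, Finset.card_powerset] at h1
      have h3 : 2 ^ n < 2 ^ s.card := by
        have : t = 2 ^ n := rfl
        omega
      exact ((Nat.pow_lt_pow_iff_right (by norm_num : 1 < 2)).mp h3).le
    · intro p hp
      obtain ⟨i, hi, hp⟩ := Finset.mem_biUnion.mp hp
      exact ⟨i, by simpa [Nat.lt_succ_iff] using hi, by simpa using hp⟩
  obtain ⟨N, c, hc, hN⟩ := hLIM a K M l hl hcount
  have hfix : ∀ i ∈ F', ∀ t, l t i = lst (ρ i) := by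
    intro i hi t
    show lst (ρ (ε t i)) = lst (ρ i)
    rw [hε2 t i hi]
  obtain ⟨N₁, c₁, hc₁, hb, hh⟩ := hFIX a K M N c l F' (fun i => lst (ρ i)) hfix hc hN
  choose h T hT hEmb hPerm hfixp using hh
  -- basic facts
  have himg : ∀ t i, i ≤ t → (c₁ i).toFinset.image (h t) = (l (T t) i).toFinset := by
    intro t i hi
    ext p
    rw [List.mem_toFinset, ← (hPerm t i hi).mem_iff]
    simp
  have hnd : ∀ i, (c₁ i).Nodup := by
    intro i
    have h1 : (l (T i) i).Nodup := hρ.nodup _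
    exact List.Nodup.of_map _ ((hPerm i i le_rfl).nodup_iff.mpr h1)
  have hcne : ∀ i, c₁ i ≠ [] := by
    intro i h0
    have h1 := hPerm i i le_rfl
    rw [h0] at h1
    simp only [List.map_nil] at h1
    exact hlne _ _ (List.nil_perm.mp h1)
  have hGdM : ∀ i, Gd 𝓖 M (lst (ρ i)).toFinset := by
    intro i
    obtain ⟨y, hy⟩ := hρ.prime i
    exact hy.1
  have hGt : ∀ (t : ℕ) (b : Finset ℕ), (∀ p ∈ b, ∃ i ≤ t, p ∈ c₁ i) →
      (Gd 𝓖 M (b.image (h t)) ↔ Gd 𝓖 N₁ b) := by
    intro t b hbt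
    exact hGD a K 𝓖 N₁ M (h t) b (Emb.mono (hEmb t) (fun p hp => hbt p hp))
  choose idx hidx using hc₁
  have hbig : ∀ b : Finset ℕ, ∀ t, b.sup idx ≤ t → ∀ p ∈ b, ∃ i ≤ t, p ∈ c₁ i := by
    intro b t ht p hp
    exact ⟨idx p, (Finset.le_sup (f := idx) hp).trans ht, hidx p⟩
  have hρ' : ∀ i, lst (Encodable.encode (c₁ i)) = c₁ i := fun i => lst_encode _
  refine ⟨N₁, fun i => Encodable.encode (c₁ i), ⟨?_, ?_, ?_, ?_⟩, ?_, ?_⟩
  · intro i
    rw [hρ']; exact hnd i
  · -- prime
    intro i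
    rw [hρ']
    have h1 : ∀ s : ℕ, ∃ y' : (c₁ i).toFinset, Pr 𝓖 M (l (T (i + s)) i).toFinset (h (i + s) y') := by
      intro s
      obtain ⟨y, hy⟩ := hρ.prime (ε (T (i + s)) i)
      have h2 : y ∈ (c₁ i).toFinset.image (h (i + s)) := by
        rw [himg (i + s) i (by omega)]
        exact hy.2.1
      obtain ⟨y', hy', rfl⟩ := Finset.mem_image.mp h2
      exact ⟨⟨y', hy'⟩, hy⟩
    choose g hg using h1
    obtain ⟨y', hy'⟩ := Finite.exists_infinite_fiber g
    have hy'' : (g ⁻¹' {y'}).Infinite := Set.infinite_coe_iff.mp hy'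
    refine ⟨y', ?_, y'.2, ?_⟩
    · rw [← hGt i _ (fun p hp => ⟨i, le_rfl, by simpa using hp⟩), himg i i le_rfl]
      exact hGdM _
    · intro b hbG hyb
      obtain ⟨s, hs, hts⟩ := hy''.exists_gt (b.sup idx)
      have hgs : g s = y' := hs
      have h3 := hg s
      rw [hgs] at h3
      have h4 : Gd 𝓖 M (b.image (h (i + s))) :=
        (hGt (i + s) b (hbig b (i + s) (by omega))).mpr hbG
      have h5 := h3.2.2 _ h4 (Finset.mem_image_of_mem _ hyb)
      rw [← himg (i + s) i (by omega)] at h5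
      intro p hp
      have h6 := h5 (Finset.mem_image_of_mem (h (i + s)) hp)
      obtain ⟨p', hp', hpp⟩ := Finset.mem_image.mp h6
      have h7 : p' = p := (hEmb (i + s)).1 (hbig b (i + s) (by omega) p' hp')
        ⟨i, by omega, by simpa using hp⟩ hpp
      rw [← h7]; exact hp'
  · -- anti
    intro i j hij
    rw [hρ', hρ'] at hij
    let t := max i j
    have h1 : (l (T t) i).toFinset ⊆ (l (T t) j).toFinset := by
      rw [← himg t i (le_max_left _ _), ← himg t j (le_max_right _ _)]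
      exact Finset.image_subset_image hij
    have h2 := hρ.anti _ _ h1
    have h3 : t ≤ T t := hT t
    have h4 : i ≤ t := le_max_left _ _
    have h5 : j ≤ t := le_max_right _ _
    exact hε1 (T t) (by simp; omega) (by simp; omega) h2
  · intro x
    exact ⟨idx x, by rw [hρ']; exact hidx x⟩
  · -- the code
    funext m i
    show tau N₁ (List.ofFn fun j => lst (Encodable.encode (c₁ (i j)))) = N' m i
    simp only [hρ']
    let t := Finset.univ.sup i
    have hit : ∀ j, i j ≤ t := fun j => Finset.le_sup (f := i) (Finset.mem_univ j)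
    rw [← hval (T t) m i (fun j => (hit j).trans (hT t))]
    refine (tau_iff hTAU N₁ M m (fun j => c₁ (i j)) (fun j => l (T t) (i j))
      (fun j => hcne _) (fun j => hlne _ _)).mpr ⟨h t, ?_, fun j => hPerm t (i j) (hit j)⟩
    refine Emb.mono (hEmb t) ?_
    rintro p ⟨j, hj⟩
    exact ⟨i j, hit j, hj⟩
  · -- GYo
    intro X
    let t := max (X.sup idx) f
    refine ⟨(Finset.range (t + 1)).biUnion fun i => (c₁ i).toFinset, ?_, ?_, ?_, h t, ?_, ?_⟩
    · intro p hp
      obtain ⟨i, hi, hpi⟩ := hbig X t (le_max_left _ _) p hp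
      exact Finset.mem_biUnion.mpr ⟨i, by simp; omega, by simpa using hpi⟩
    · intro p hp
      obtain ⟨i, hi, hpi⟩ := hFF p hp
      have h1 : i ≤ t := (hf i hi).trans (le_max_right _ _)
      exact Finset.mem_biUnion.mpr ⟨i, by simp; omega, by
        rw [List.mem_toFinset]; exact (hb i hi).mem_iff.mpr hpi⟩
    · rw [← hGt t _ (by
        intro p hp
        obtain ⟨i, hi, hpi⟩ := Finset.mem_biUnion.mp hp
        exact ⟨i, by simpa [Nat.lt_succ_iff] using hi, by simpa using hpi⟩)]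
      have h1 : ∀ n ≤ t, Gd 𝓖 M
          (((Finset.range (n + 1)).biUnion fun i => (c₁ i).toFinset).image (h t)) := by
        intro n
        induction n with
        | zero =>
          intro _
          simp only [zero_add, Finset.range_one, Finset.singleton_biUnion]
          rw [himg t 0 (Nat.zero_le _)]
          exact hGdM _
        | succ n ih =>
          intro hn
          rw [Finset.range_add_one, Finset.biUnion_insert, Finset.image_union]
          refine hU _ _ ?_ (ih (by omega))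
          rw [himg t (n + 1) hn]
          exact hGdM _
      exact h1 t le_rfl
    · intro p hp
      obtain ⟨i, hi, hpi⟩ := hFF p hp
      exact hfixp t i hi p hpi
    · refine Emb.mono (hEmb t) ?_
      intro p hp
      obtain ⟨i, hi, hpi⟩ := Finset.mem_biUnion.mp (Finset.mem_coe.mp hp)
      exact ⟨i, by simpa [Nat.lt_succ_iff] using hi, by simpa using hpi⟩

end

theorem s_YNG (hTAU : S_TAU) (hGDL : S_GDL) (hLIM : S_LIM) (hFIX : S_FIX) : S_YNG :=
  yng hTAU (fun a K 𝓖 M N e b h => (hGDL a K 𝓖).1 N M e b h) hLIM hFIX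

end Pool.Agent.L7h95.GB
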